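import Pool.Agent.Run7.h614.NP.Inf
import Pool.Agent.H38R3.Ellentuck

/-!
# Hereditary infinite exact prime patterns along narrow progressions, coloured

`inf_pat` combined with the theorem of Ellentuck (`Pool.Agent.H38R3.Ell`), as in
`Pool.Agent.W68.Her`.
-/

set_option autoImplicit false

open Filter Topology

namespace Pool.Agent.Run7.h614.NP

open Pool.Agent.Y520.NP Pool.Agent.H38R3.Ell

/-- `P` is a coloured exact prime pattern along narrow progressions, for every radius -/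
def Ex {κ : Type} (χ : ℕ → κ) (P : Set ℤ) : Prop := ∀ R : ℕ, ∃ γ : ℤ → κ, NAP (PatC χ γ R P)

theorem patC_congr {κ : Type} (χ : ℕ → κ) (γ : ℤ → κ) {R : ℕ} {P P' : Set ℤ}
    (h : ∀ y : ℤ, |y| ≤ R → (y ∈ P ↔ y ∈ P')) : PatC χ γ R P ⊆ PatC χ γ R P' := by
  intro n hn y hy
  have h1 := hn y hy
  rw [h y hy] at h1
  exact h1

theorem pre_bdd {F : ℕ → ℤ} (hF : Function.Injective F) (R : ℕ) :
    ∃ N : ℕ, ∀ a, |F a| ≤ R → a < N := by
  have h1 : (F ⁻¹' (Set.Icc (-(R : ℤ)) R)).Finite := (Set.finite_Icc _ _).preimage hF.injOn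
  obtain ⟨N, hN⟩ := h1.bddAbove
  exact ⟨N + 1, fun i hi => Nat.lt_succ_of_le (hN (abs_le.1 hi))⟩

theorem eo {κ : Type} (χ : ℕ → κ) {F : ℕ → ℤ} (hF : Function.Injective F) :
    EO {z : Set ℕ | ¬ Ex χ (F '' z)} := by
  intro z hz hzi
  simp only [Set.mem_ofPred_eq] at hz
  unfold Ex at hz
  push Not at hz
  obtain ⟨R, hR⟩ := hz
  obtain ⟨N, hN⟩ := pre_bdd hF R
  obtain ⟨u, hu1, hu2, hu3, -⟩ := exists_init hzi N 0
  refine ⟨u, hu1, fun w hw hE => ?_⟩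
  obtain ⟨γ, hγ⟩ := hE R
  refine hR γ (NAP_mono (patC_congr χ γ fun y hy => ?_) hγ)
  constructor
  · rintro ⟨a, ha, rfl⟩
    refine ⟨a, ?_, rfl⟩
    rcases hw.2.2 a ha with h | h
    · exact hu3 a h
    · exact h.1
  · rintro ⟨a, ha, rfl⟩
    exact ⟨a, hw.2.1 a (hu2 a ha (hN a hy)), rfl⟩

theorem core (hBM : S_BM) {κ : Type} [Finite κ] [Nonempty κ] (χ : ℕ → κ) {F : ℕ → ℤ}
    (hF : Function.Injective F) (Y : Set ℕ) (hY : Y.Infinite) :
    ∃ Y' ⊆ Y, Y'.Infinite ∧ ∀ U ⊆ Y', Ex χ (F '' U) := by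
  obtain ⟨Y', h1, h2, h3⟩ := (eo χ hF).cr ∅ Y hY
  have h4 : ∀ z ∈ Nb ∅ Y', Ex χ (F '' z) := by
    rcases h3 with h3 | h3
    · exfalso
      obtain ⟨G, hG1, hG2, hG3⟩ := inf_pat hBM χ (F '' Y') (h2.image hF.injOn)
      have h5 : F '' (F ⁻¹' G ∩ Y') = G := by
        ext f
        constructor
        · rintro ⟨a, ha, rfl⟩
          exact ha.1
        · intro hf
          obtain ⟨a, ha, rfl⟩ := hG1 hf
          exact ⟨a, ⟨hf, ha⟩, rfl⟩
      have h6 : (F ⁻¹' G ∩ Y').Infinite := by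
        intro hfin
        apply hG2
        rw [← h5]
        exact hfin.image F
      refine h3 (F ⁻¹' G ∩ Y') ⟨h6, by simp, fun n hn => Or.inr ⟨hn.2, by simp⟩⟩ ?_
      rw [h5]
      exact hG3
    · intro z hz
      by_contra h
      exact h3 z hz h
  refine ⟨Y', h1, h2, fun U hU R => ?_⟩
  obtain ⟨N, hN⟩ := pre_bdd hF R
  have h5 : (Y' \ Set.Iio N).Infinite := h2.sdiff (Set.finite_Iio N)
  obtain ⟨γ, hγ⟩ := h4 (U ∪ (Y' \ Set.Iio N)) ⟨h5.mono Set.subset_union_right, by simp, fun n hn => by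
    right
    refine ⟨?_, by simp⟩
    rcases hn with h | h
    · exact hU h
    · exact h.1⟩ R
  refine ⟨γ, NAP_mono (patC_congr χ γ fun y hy => ?_) hγ⟩
  constructor
  · rintro ⟨a, ha, rfl⟩
    rcases ha with ha | ha
    · exact ⟨a, ha, rfl⟩
    · exact absurd (hN a hy) ha.2
  · rintro ⟨a, ha, rfl⟩
    exact ⟨a, Or.inl ha, rfl⟩

/-- one colouring for all radii -/
theorem one_gamma {κ : Type} [Finite κ] (χ : ℕ → κ) {P : Set ℤ} (h : Ex χ P) :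
    ∃ γ : ℤ → κ, ∀ R : ℕ, NAP (PatC χ γ R P) := by
  classical
  choose g hg using h
  set U : Ultrafilter ℕ := Ultrafilter.of atTop with hU
  have hUle : (U : Filter ℕ) ≤ atTop := Ultrafilter.of_le _
  have h1 : ∀ y : ℤ, ∃ c : κ, ∀ᶠ R in (U : Filter ℕ), g R y = c := by
    intro y
    obtain ⟨c, hc⟩ := (U.map (fun R => g R y)).eq_pure_of_finite
    refine ⟨c, ?_⟩
    have h2 : {c} ∈ (U.map (fun R => g R y)) := by
      rw [hc]
      exact Filter.mem_pure.2 (Set.mem_singleton c)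
    exact h2
  choose γ hγ using h1
  refine ⟨γ, fun R => ?_⟩
  have h2 : ∀ᶠ R' in (U : Filter ℕ), ∀ y ∈ Finset.Icc (-(R : ℤ)) R, g R' y = γ y :=
    (Filter.eventually_all_finset _).2 fun y _ => hγ y
  have h3 : ∀ᶠ R' in (U : Filter ℕ), R ≤ R' := hUle (eventually_ge_atTop R)
  obtain ⟨R', h4, h5⟩ := (h2.and h3).exists
  refine NAP_mono ?_ (hg R')
  intro n hn y hy
  obtain ⟨h6, h7⟩ := patC_anti χ (g R') h5 P hn y hy
  refine ⟨h6, fun hP => ?_⟩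
  rw [h7 hP]
  exact h4 y (Finset.mem_Icc.2 (abs_le.1 hy))

/-- the hereditary theorem -/
theorem hereditary (hBM : S_BM) {κ : Type} [Finite κ] (χ : ℕ → κ) (A : Set ℤ) (hA : A.Infinite) :
    ∃ B ⊆ A, B.Infinite ∧ ∀ I ⊆ B, ∃ γ : ℤ → κ, ∀ R : ℕ, NAP (PatC χ γ R I) := by
  have : Nonempty κ := ⟨χ 0⟩
  have hinj : Function.Injective (fun i : ℕ => ((hA.natEmbedding A i : A) : ℤ)) :=
    Subtype.val_injective.comp (hA.natEmbedding A).injective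
  obtain ⟨Y', -, h2, h3⟩ := core hBM χ hinj Set.univ Set.infinite_univ
  refine ⟨(fun i : ℕ => ((hA.natEmbedding A i : A) : ℤ)) '' Y', ?_, h2.image hinj.injOn, ?_⟩
  · rintro _ ⟨i, _, rfl⟩
    exact (hA.natEmbedding A i).2
  · intro I hI
    apply one_gamma
    have h4 : (fun i : ℕ => ((hA.natEmbedding A i : A) : ℤ)) ''
        ((fun i : ℕ => ((hA.natEmbedding A i : A) : ℤ)) ⁻¹' I ∩ Y') = I := by
      ext f
      constructor
      · rintro ⟨a, ha, rfl⟩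
        exact ha.1
      · intro hf
        obtain ⟨a, ha, rfl⟩ := hI hf
        exact ⟨a, ⟨hf, ha⟩, rfl⟩
    rw [← h4]
    exact h3 _ Set.inter_subset_right

/-- one exponent for a finite family of sets -/
theorem unif_C {F : Set (Set ℕ)} (hfin : F.Finite) (h : ∀ T ∈ F, NAP T) (k : ℕ) : ∃ C : ℕ,
    ∀ T ∈ F, ∀ n₀ : ℕ, ∃ n d : ℕ, n₀ ≤ n ∧ 1 ≤ d ∧ (d : ℝ) ≤ Real.log n ^ C ∧
      ∀ j < k, n + j * d ∈ T := by
  classical
  have h1 : ∀ T : Set ℕ, ∃ C : ℕ, T ∈ F → ∀ n₀ : ℕ, ∃ n d : ℕ, n₀ ≤ n ∧ 1 ≤ d ∧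
      (d : ℝ) ≤ Real.log n ^ C ∧ ∀ j < k, n + j * d ∈ T := by
    intro T
    by_cases hT : T ∈ F
    · obtain ⟨C, hC⟩ := h T hT k
      exact ⟨C, fun _ => hC⟩
    · exact ⟨0, fun h => absurd h hT⟩
  choose C hC using h1
  refine ⟨hfin.toFinset.sup C, fun T hT n₀ => ?_⟩
  obtain ⟨n, d, hn, hd1, hd2, hnd⟩ := hC T hT (max n₀ 3)
  refine ⟨n, d, (le_max_left _ _).trans hn, hd1, hd2.trans ?_, hnd⟩
  have h3 : (3 : ℝ) ≤ n := by exact_mod_cast (le_max_right _ _).trans hn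
  have h4 : 1 ≤ Real.log n := by
    rw [Real.le_log_iff_exp_le (by linarith)]
    have := Real.exp_one_lt_d9
    linarith
  exact pow_le_pow_right₀ h4 (Finset.le_sup (f := C) (hfin.mem_toFinset.2 hT))

theorem finite_range {κ : Type} [Finite κ] (χ : ℕ → κ) (γ : Set ℤ → ℤ → κ) (R : ℕ) :
    (Set.range fun I : Set ℤ => PatC χ (γ I) R I).Finite := by
  classical
  let enc : Set ℤ → (Finset.Icc (-(R : ℤ)) R → Prop × κ) := fun I y => (y.1 ∈ I, γ I y.1)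
  let dec : (Finset.Icc (-(R : ℤ)) R → Prop × κ) → Set ℕ := fun e =>
    {n : ℕ | ∀ y : Finset.Icc (-(R : ℤ)) R, ((Nat.Prime ((n : ℤ) + y.1).toNat ↔ (e y).1) ∧
      ((e y).1 → χ ((n : ℤ) + y.1).toNat = (e y).2))}
  have h1 : (Set.range dec).Finite := Set.finite_range dec
  refine h1.subset ?_
  rintro _ ⟨I, rfl⟩
  refine ⟨enc I, ?_⟩
  ext n
  constructor
  · intro h y hy
    exact h ⟨y, Finset.mem_Icc.2 (abs_le.1 hy)⟩
  · intro h y
    exact h y.1 (abs_le.2 (Finset.mem_Icc.1 y.2))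

/-- the hereditary theorem, with exponents which do not depend on the subset -/
theorem hereditary_unif (hBM : S_BM) {κ : Type} [Finite κ] (χ : ℕ → κ) (A : Set ℤ)
    (hA : A.Infinite) : ∃ B ⊆ A, B.Infinite ∧ ∃ γ : Set ℤ → ℤ → κ, ∀ R k : ℕ, ∃ C : ℕ, ∀ I ⊆ B,
      ∀ n₀ : ℕ, ∃ n d : ℕ, n₀ ≤ n ∧ 1 ≤ d ∧ (d : ℝ) ≤ Real.log n ^ C ∧
        ∀ j < k, n + j * d ∈ PatC χ (γ I) R I := by
  classical
  obtain ⟨B, h1, h2, h3⟩ := hereditary hBM χ A hA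
  have h4 : ∀ I : Set ℤ, ∃ γ : ℤ → κ, I ⊆ B → ∀ R : ℕ, NAP (PatC χ γ R I) := by
    intro I
    by_cases hI : I ⊆ B
    · obtain ⟨γ, hγ⟩ := h3 I hI
      exact ⟨γ, fun _ => hγ⟩
    · exact ⟨fun _ => χ 0, fun h => absurd h hI⟩
  choose γ hγ using h4
  refine ⟨B, h1, h2, γ, fun R k => ?_⟩
  obtain ⟨C, hC⟩ := unif_C (F := (fun I : Set ℤ => PatC χ (γ I) R I) '' {I | I ⊆ B})
    ((finite_range χ γ R).subset (Set.image_subset_range _ _)) (by
      rintro _ ⟨I, hI, rfl⟩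
      exact hγ I hI R) k
  exact ⟨C, fun I hI => hC _ ⟨I, hI, rfl⟩⟩

end Pool.Agent.Run7.h614.NP
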