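import Pool.Agent.H362R2.QT.Stubs

/-!
# Products of test functions with a set of scales for every coordinate

`c l`, `l < B`, are dyadic scales, coordinate `j` uses the scales in `L j`, and
`rho l = gam / c l`. The family `A` of the `a` with `a j ∈ L j` and `∑ c (a j) ≤ 1`.
Adapted from `Pool.Agent.H362R2.QT.FAM` (helper362), where all coordinates use all scales.
-/

set_option autoImplicit false

open Finset Filter Topology
open scoped ContDiff

namespace Pool.Agent.Run7.h614.NP

open Pool.Agent.H378R2 Pool.Agent.H387R2 Pool.Agent.H387R2.MB Pool.Agent.H362R2.QT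

/-- combinatorial part -/
theorem comb {n B : ℕ} (L : Fin n → Finset (Fin B)) (c rho : Fin B → ℝ) (g η r : ℝ)
    (hg : 0 < g) (hc : ∀ l, 0 < c l) (hcr : ∀ l, c l * rho l = g)
    (s : Fin n → ℝ) (hs : ∀ j, s j = ∑ l ∈ L j, rho l) (hs1 : ∀ j, 0 < s j) (hr : 0 < r)
    (hbig : ∑ j, ((L j).card : ℝ) * g / s j ≤ η * r) :
    (1 - η) * ∏ j, s j ≤ ∑ a ∈ (Fintype.piFinset L).filter (fun a => ∑ j, c (a j) ≤ r),
      ∏ j, rho (a j) := by
  classical
  have hrho : ∀ l, 0 < rho l := fun l => by
    have := hcr l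
    by_contra h
    push Not at h
    have : c l * rho l ≤ 0 := mul_nonpos_of_nonneg_of_nonpos (hc l).le h
    linarith
  have htot : ∑ a ∈ Fintype.piFinset L, ∏ j, rho (a j) = ∏ j, s j := by
    rw [← Finset.prod_univ_sum]
    exact Finset.prod_congr rfl fun j _ => (hs j).symm
  have hsplit := Finset.sum_filter_add_sum_filter_not (Fintype.piFinset L)
    (fun a => ∑ j, c (a j) ≤ r) (fun a => ∏ j, rho (a j))
  rw [htot] at hsplit
  have hbad : (∑ a ∈ (Fintype.piFinset L).filter (fun a => ¬ ∑ j, c (a j) ≤ r),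
      ∏ j, rho (a j)) * r ≤ ∑ a ∈ Fintype.piFinset L, (∑ j, c (a j)) * ∏ j, rho (a j) := by
    rw [Finset.sum_mul]
    calc _ ≤ ∑ a ∈ (Fintype.piFinset L).filter (fun a => ¬ ∑ j, c (a j) ≤ r),
          ((∑ j, c (a j)) * ∏ j, rho (a j)) := by
            refine Finset.sum_le_sum fun a ha => ?_
            rw [Finset.mem_filter, not_le] at ha
            have hp : 0 ≤ ∏ j, rho (a j) := Finset.prod_nonneg fun j _ => (hrho _).le
            nlinarith [ha.2]
      _ ≤ _ := by
            apply Finset.sum_le_sum_of_subset_of_nonneg (Finset.filter_subset _ _)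
            intro a _ _
            have hp : 0 ≤ ∏ j, rho (a j) := Finset.prod_nonneg fun j _ => (hrho _).le
            have hq : 0 ≤ ∑ j, c (a j) := Finset.sum_nonneg fun j _ => (hc _).le
            positivity
  have hone : ∀ j : Fin n, ∑ a ∈ Fintype.piFinset L, c (a j) * ∏ k, rho (a k) =
      ((L j).card : ℝ) * g / s j * ∏ k, s k := by
    intro j
    have h1 : ∀ a : Fin n → Fin B, c (a j) * ∏ k, rho (a k) =
        ∏ k, (fun (k : Fin n) (l : Fin B) => if k = j then g else rho l) k (a k) := by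
      intro a
      rw [← Finset.mul_prod_erase univ _ (Finset.mem_univ j), ← mul_assoc, hcr,
        ← Finset.mul_prod_erase univ (fun k => (fun (k : Fin n) (l : Fin B) => if k = j then g else rho l) k (a k))
          (Finset.mem_univ j)]
      simp only [if_true]
      congr 1
      refine Finset.prod_congr rfl fun k hk => ?_
      rw [if_neg (Finset.ne_of_mem_erase hk)]
    have h0 := Finset.prod_univ_sum L (fun (k : Fin n) (l : Fin B) => if k = j then g else rho l)
    rw [Finset.sum_congr rfl (fun a _ => h1 a)]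
    refine h0.symm.trans ?_
    rw [← Finset.mul_prod_erase univ _ (Finset.mem_univ j)]
    simp only [if_true]
    rw [Finset.sum_const, nsmul_eq_mul, ← Finset.mul_prod_erase univ s (Finset.mem_univ j)]
    have h2 : ∏ k ∈ univ.erase j, (∑ l ∈ L k, if k = j then g else rho l) =
        ∏ k ∈ univ.erase j, s k := by
      refine Finset.prod_congr rfl fun k hk => ?_
      simp only [if_neg (Finset.ne_of_mem_erase hk)]
      exact (hs k).symm
    rw [h2]
    have := (hs1 j).ne'
    field_simp
  have hexch : ∑ a ∈ Fintype.piFinset L, (∑ j, c (a j)) * ∏ j, rho (a j) =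
      (∑ j, ((L j).card : ℝ) * g / s j) * ∏ k, s k := by
    have : ∑ a ∈ Fintype.piFinset L, (∑ j, c (a j)) * ∏ j, rho (a j) =
        ∑ j : Fin n, ∑ a ∈ Fintype.piFinset L, c (a j) * ∏ k, rho (a k) := by
      rw [Finset.sum_comm]
      refine Finset.sum_congr rfl fun a _ => ?_
      rw [Finset.sum_mul]
    rw [this, Finset.sum_congr rfl (fun j _ => hone j), Finset.sum_mul]
  have hS : 0 < ∏ j, s j := Finset.prod_pos fun j _ => hs1 j
  rw [hexch] at hbad
  have hbad2 : ∑ a ∈ (Fintype.piFinset L).filter (fun a => ¬ ∑ j, c (a j) ≤ r),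
      ∏ j, rho (a j) ≤ η * ∏ j, s j := by
    have h1 := mul_le_mul_of_nonneg_right hbig hS.le
    have h2 := hbad.trans h1
    have e : η * r * ∏ k, s k = (η * ∏ k, s k) * r := by ring
    rw [e] at h2
    exact le_of_mul_le_mul_right h2 hr
  linarith

section fam

variable {K0 B : ℕ} (L : Fin (K0 + 1) → Finset (Fin B)) (c : Fin B → ℝ)

/-- the family -/
noncomputable def AA : Finset (Fin (K0 + 1) → Fin B) :=
  (Fintype.piFinset L).filter (fun a => ∑ j, c (a j) ≤ 1)

/-- the sum of the weights of a coordinate -/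
noncomputable def sj (j : Fin (K0 + 1)) : ℝ := ∑ l ∈ L j, gam / c l

variable (hc : ∀ l, 0 < c l) (hd : ∀ l l' : Fin B, l < l' → c l ≤ c l' / 2)

include hc hd in
theorem DDf (l l' : Fin B) : DD (hs (c l)) (hs (c l')) = if l = l' then gam / c l else 0 := by
  split_ifs with h
  · subst h
    exact DD_hs_self (hc l)
  · rcases lt_or_gt_of_ne h with h1 | h1
    · exact DD_hs_ne (hc l) (hd _ _ h1)
    · rw [DD_comm]; exact DD_hs_ne (hc l') (hd _ _ h1)

include hc hd in
theorem prodDD {n : ℕ} (a b : Fin n → Fin B) : ∏ j, DD (hs (c (a j))) (hs (c (b j))) =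
      if a = b then ∏ j, gam / c (a j) else 0 := by
  split_ifs with h
  · subst h
    refine Finset.prod_congr rfl fun j _ => ?_
    rw [DDf c hc hd, if_pos rfl]
  · obtain ⟨j, hj⟩ := Function.ne_iff.1 h
    apply Finset.prod_eq_zero (Finset.mem_univ j)
    rw [DDf c hc hd, if_neg hj]

include hc hd in
theorem DDnn (l l' : Fin B) : 0 ≤ DD (hs (c l)) (hs (c l')) := by
  rw [DDf c hc hd]
  split_ifs
  · exact (div_pos gam_pos (hc _)).le
  · exact le_rfl

include hc hd in
theorem II_eq : II (fun l => hs (c l)) (AA L c) = ∑ a ∈ AA L c, ∏ j, gam / c (a j) := by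
  unfold II
  refine Finset.sum_congr rfl fun a ha => ?_
  simp_rw [prodDD c hc hd]
  rw [Finset.sum_ite_eq (AA L c) a, if_pos ha]

include hc hd in
theorem II_le : II (fun l => hs (c l)) (AA L c) ≤ ∏ j, sj L c j := by
  rw [II_eq L c hc hd]
  calc _ ≤ ∑ a ∈ Fintype.piFinset L, ∏ j, gam / c (a j) :=
        Finset.sum_le_sum_of_subset_of_nonneg (Finset.filter_subset _ _) fun a _ _ =>
          Finset.prod_nonneg fun j _ => (div_pos gam_pos (hc _)).le
    _ = ∏ j, sj L c j := by
        unfold sj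
        rw [Finset.prod_univ_sum]

include hc hd in
theorem JJ_ge (i : Fin (K0 + 1)) (η : ℝ) (hs1 : ∀ j, 0 < sj L c j)
    (hcle : ∀ l, c l ≤ 1 / 2)
    (hbig : ∑ j, ((L (i.succAbove j)).card : ℝ) * gam / sj L c (i.succAbove j) ≤ η * (1 / 2)) :
    (1 - η) * ((L i).card : ℝ) ^ 2 * ∏ j, sj L c (i.succAbove j) ≤
      JJ (fun l => hs (c l)) (AA L c) i := by
  classical
  have hcomb := comb (fun j => L (i.succAbove j)) c (fun l => gam / c l) gam η (1 / 2) gam_pos hc
    (fun l => by have := (hc l).ne'; field_simp) (fun j => sj L c (i.succAbove j))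
    (fun j => rfl) (fun j => hs1 _) (by norm_num) hbig
  unfold JJ
  set good := (Fintype.piFinset (fun j => L (i.succAbove j))).filter
    (fun a : Fin K0 → Fin B => ∑ j, c (a j) ≤ 1 / 2) with hgood
  simp_rw [hs_at_zero, one_mul]
  rw [← Finset.sum_product']
  set φ : (Fin B × Fin B) × (Fin K0 → Fin B) → (Fin (K0 + 1) → Fin B) × (Fin (K0 + 1) → Fin B) :=
    fun x => (i.insertNth (α := fun _ => Fin B) x.1.1 x.2, i.insertNth (α := fun _ => Fin B) x.1.2 x.2) with hφ
  have hmem : ∀ a' ∈ good, ∀ l ∈ L i, (i.insertNth (α := fun _ => Fin B) l a') ∈ AA L c := by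
    intro a' ha' l hl
    rw [hgood, Finset.mem_filter, Fintype.mem_piFinset] at ha'
    unfold AA
    rw [Finset.mem_filter, Fintype.mem_piFinset]
    refine ⟨fun j => ?_, ?_⟩
    · rcases Fin.eq_self_or_eq_succAbove i j with rfl | ⟨j', rfl⟩
      · rw [Fin.insertNth_apply_same]; exact hl
      · rw [Fin.insertNth_apply_succAbove]; exact ha'.1 j'
    · rw [Fin.sum_univ_succAbove _ i]
      simp only [Fin.insertNth_apply_same, Fin.insertNth_apply_succAbove]
      have := ha'.2
      have := hcle l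
      linarith
  have himg : (((L i) ×ˢ (L i)) ×ˢ good).image φ ⊆ AA L c ×ˢ AA L c := by
    intro x hx
    rw [Finset.mem_image] at hx
    obtain ⟨y, hy, rfl⟩ := hx
    rw [Finset.mem_product, Finset.mem_product] at hy
    rw [Finset.mem_product]
    exact ⟨hmem _ hy.2 _ hy.1.1, hmem _ hy.2 _ hy.1.2⟩
  have hnn : ∀ x ∈ AA L c ×ˢ AA L c, x ∉ (((L i) ×ˢ (L i)) ×ˢ good).image φ →
      0 ≤ ∏ j : Fin K0, DD (hs (c (x.1 (i.succAbove j)))) (hs (c (x.2 (i.succAbove j)))) := by
    intro x _ _
    exact Finset.prod_nonneg fun j _ => DDnn c hc hd _ _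
  refine le_trans ?_ (Finset.sum_le_sum_of_subset_of_nonneg himg hnn)
  rw [Finset.sum_image]
  · rw [Finset.sum_product]
    have h1 : ∀ x : Fin B × Fin B, ∑ y ∈ good, ∏ j : Fin K0, DD (hs (c ((φ (x, y)).1 (i.succAbove j))))
        (hs (c ((φ (x, y)).2 (i.succAbove j)))) = ∑ y ∈ good, ∏ j, gam / c (y j) := by
      intro x
      refine Finset.sum_congr rfl fun y _ => ?_
      simp only [hφ, Fin.insertNth_apply_succAbove]
      rw [prodDD c hc hd y y, if_pos rfl]
    simp_rw [h1]
    rw [Finset.sum_const, Finset.card_product, nsmul_eq_mul]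
    push_cast
    have hBB : (0 : ℝ) ≤ ((L i).card : ℝ) * (L i).card := by positivity
    calc (1 - η) * ((L i).card : ℝ) ^ 2 * ∏ j, sj L c (i.succAbove j) =
          ((L i).card : ℝ) * (L i).card * ((1 - η) * ∏ j, sj L c (i.succAbove j)) := by ring
      _ ≤ _ := mul_le_mul_of_nonneg_left hcomb hBB
  · intro x _ y _ hxy
    simp only [hφ, Prod.mk.injEq] at hxy
    have h1 := congrFun hxy.1 i
    have h2 := congrFun hxy.2 i
    simp only [Fin.insertNth_apply_same] at h1 h2
    have h3 : x.2 = y.2 := by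
      funext j
      have := congrFun hxy.1 (i.succAbove j)
      simpa only [Fin.insertNth_apply_succAbove] using this
    exact Prod.ext (Prod.ext h1 h2) h3

include hc hd in
theorem JJ2_le (i : Fin (K0 + 1)) (j0 : Fin K0) :
    JJ2 (fun l => hs (c l)) (AA L c) i j0 ≤ ((L i).card : ℝ) ^ 2 *
      (((L (i.succAbove j0)).card : ℝ) ^ 2 *
        ∏ j ∈ (univ : Finset (Fin K0)).erase j0, sj L c (i.succAbove j)) := by
  classical
  unfold JJ2
  simp_rw [hs_at_zero, one_mul]
  have hnn : ∀ a b : Fin (K0 + 1) → Fin B, 0 ≤ ∏ j ∈ (univ : Finset (Fin K0)).erase j0,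
        DD (hs (c (a (i.succAbove j)))) (hs (c (b (i.succAbove j)))) := fun a b =>
    Finset.prod_nonneg fun j _ => DDnn c hc hd _ _
  have h1 : ∑ a ∈ AA L c, ∑ b ∈ AA L c, ∏ j ∈ (univ : Finset (Fin K0)).erase j0,
      DD (hs (c (a (i.succAbove j)))) (hs (c (b (i.succAbove j)))) ≤
      ∑ a ∈ Fintype.piFinset L, ∑ b ∈ Fintype.piFinset L,
        ∏ j ∈ (univ : Finset (Fin K0)).erase j0,
          DD (hs (c (a (i.succAbove j)))) (hs (c (b (i.succAbove j)))) := by
    calc _ ≤ ∑ a ∈ AA L c, ∑ b ∈ Fintype.piFinset L, ∏ j ∈ (univ : Finset (Fin K0)).erase j0,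
          DD (hs (c (a (i.succAbove j)))) (hs (c (b (i.succAbove j)))) :=
          Finset.sum_le_sum fun a _ =>
            Finset.sum_le_sum_of_subset_of_nonneg (Finset.filter_subset _ _) fun b _ _ => hnn a b
      _ ≤ _ := Finset.sum_le_sum_of_subset_of_nonneg (Finset.filter_subset _ _)
            fun a _ _ => Finset.sum_nonneg fun b _ => hnn a b
  have h2 : ∀ a b : Fin (K0 + 1) → Fin B, ∏ j ∈ (univ : Finset (Fin K0)).erase j0,
          DD (hs (c (a (i.succAbove j)))) (hs (c (b (i.succAbove j)))) =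
      ∏ j : Fin (K0 + 1), (fun (j : Fin (K0 + 1)) (l l' : Fin B) =>
        if j = i then 1 else if j = i.succAbove j0 then 1 else DD (hs (c l)) (hs (c l'))) j (a j) (b j) := by
    intro a b
    rw [Fin.prod_univ_succAbove _ i]
    simp only [if_true, one_mul]
    rw [← Finset.mul_prod_erase univ _ (Finset.mem_univ j0)]
    simp only [if_true, Fin.succAbove_ne, if_false, one_mul]
    refine Finset.prod_congr rfl fun j hj => ?_
    rw [if_neg]
    intro h
    exact (Finset.ne_of_mem_erase hj) (Fin.succAbove_right_injective h)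
  have h3 : ∑ a ∈ Fintype.piFinset L, ∑ b ∈ Fintype.piFinset L,
        ∏ j ∈ (univ : Finset (Fin K0)).erase j0,
          DD (hs (c (a (i.succAbove j)))) (hs (c (b (i.succAbove j)))) =
      ∏ j : Fin (K0 + 1), ∑ l ∈ L j, ∑ l' ∈ L j,
        (if j = i then 1 else if j = i.succAbove j0 then 1 else DD (hs (c l)) (hs (c l'))) := by
    rw [Finset.prod_univ_sum]
    refine Finset.sum_congr rfl fun a _ => ?_
    rw [Finset.prod_univ_sum]
    refine Finset.sum_congr rfl fun b _ => ?_
    rw [h2]
  have h4 : ∏ j : Fin (K0 + 1), ∑ l ∈ L j, ∑ l' ∈ L j,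
        (if j = i then (1 : ℝ) else if j = i.succAbove j0 then 1 else DD (hs (c l)) (hs (c l'))) =
      ((L i).card : ℝ) ^ 2 *
      (((L (i.succAbove j0)).card : ℝ) ^ 2 *
        ∏ j ∈ (univ : Finset (Fin K0)).erase j0, sj L c (i.succAbove j)) := by
    rw [Fin.prod_univ_succAbove _ i]
    simp only [if_true, Fin.succAbove_ne, if_false]
    rw [← Finset.mul_prod_erase univ _ (Finset.mem_univ j0)]
    simp only [if_true]
    have h5 : ∀ S : Finset (Fin B), ∑ l ∈ S, ∑ l' ∈ S, (1 : ℝ) = (S.card : ℝ) ^ 2 := by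
      intro S
      simp only [Finset.sum_const, nsmul_eq_mul, mul_one]
      ring
    rw [h5, h5]
    congr 2
    refine Finset.prod_congr rfl fun x hx => ?_
    have hne : ¬ i.succAbove x = i.succAbove j0 := fun h =>
      (Finset.ne_of_mem_erase hx) (Fin.succAbove_right_injective h)
    simp only [if_neg hne]
    unfold sj
    refine Finset.sum_congr rfl fun l hl => ?_
    simp_rw [DDf c hc hd]
    rw [Finset.sum_ite_eq, if_pos hl]
  rw [← h4, ← h3]
  exact h1

end fam

end Pool.Agent.Run7.h614.NP
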