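import Pool.Agent.Run7.h614.NP.Comb
import Pool.Agent.Y520.NP.Stm

/-!
# S_FAMB: the family of test functions for infinitely many blocks of coordinates
-/

set_option autoImplicit false

open Finset Filter Topology
open scoped ContDiff

namespace Pool.Agent.Run7.h614.NP

open Pool.Agent.H378R2 Pool.Agent.H387R2 Pool.Agent.H387R2.MB Pool.Agent.H362R2.QT

/-- sums over blocks -/
theorem sum_blocks (K : ℕ → ℕ) (blk : ℕ → ℕ)
    (hblk : ∀ t, ∀ i ∈ Ico (∑ r ∈ range t, K r) (∑ r ∈ range (t + 1), K r), blk i = t)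
    (g : ℕ → ℝ) (J : ℕ) :
    ∑ i ∈ range (∑ r ∈ range J, K r), g (blk i) = ∑ s ∈ range J, (K s : ℝ) * g s := by
  induction J with
  | zero => simp
  | succ J ih =>
    have hle : ∑ r ∈ range J, K r ≤ ∑ r ∈ range (J + 1), K r := by
      rw [Finset.sum_range_succ]; omega
    rw [← Finset.sum_range_add_sum_Ico _ hle, ih, Finset.sum_range_succ (fun s => (K s : ℝ) * g s)]
    congr 1
    rw [Finset.sum_congr rfl (g := fun _ => g J) (fun i hi => by rw [hblk J i hi]),
      Finset.sum_const, Nat.card_Ico, nsmul_eq_mul, Finset.sum_range_succ, Nat.add_sub_cancel_left]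

theorem half_sum (n : ℕ) : ∑ l ∈ range n, (1 / 2 : ℝ) ^ (l + 1) = 1 - (1 / 2) ^ n := by
  induction n with
  | zero => simp
  | succ n ih => rw [Finset.sum_range_succ, ih]; ring

/-- the parameters of one block -/
theorem params (η M0 : ℝ) (hη : 0 < η) (hη1 : η < 1) (s : ℕ) : ∃ b m : ℕ, 1 ≤ b ∧ b + 1 ≤ m ∧
    (b : ℝ) * 2 / 2 ^ m ≤ η / (8 * 2 ^ b * 2 ^ s) ∧
    ∀ σ : ℝ, 0 < σ → σ ≤ gam * 2 ^ m → M0 ≤ 2 ^ b * (b : ℝ) ^ 2 / σ := by
  obtain ⟨b, hb⟩ : ∃ b : ℕ, b = max 1 ⌈32 * gam * M0 * 2 ^ s / η⌉₊ := ⟨_, rfl⟩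
  have hb1 : 1 ≤ b := by rw [hb]; exact le_max_left _ _
  have hbM : 32 * gam * M0 * 2 ^ s / η ≤ b := by
    rw [hb]
    exact (Nat.le_ceil _).trans (by exact_mod_cast le_max_right _ _)
  have hbr : (1 : ℝ) ≤ b := by exact_mod_cast hb1
  set x : ℝ := 16 * 2 ^ b * b * 2 ^ s / η with hx
  have hs1 : (1 : ℝ) ≤ 2 ^ s := one_le_pow₀ (by norm_num)
  have hb2 : (1 : ℝ) ≤ 2 ^ b := one_le_pow₀ (by norm_num)
  have hx16 : 16 * 2 ^ b ≤ x := by
    rw [hx, le_div_iff₀ hη]
    have h1 : (1 : ℝ) ≤ b * 2 ^ s := by nlinarith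
    have h2 : (0 : ℝ) < 16 * 2 ^ b := by positivity
    calc 16 * 2 ^ b * η ≤ 16 * 2 ^ b * (b * 2 ^ s) := by
          apply mul_le_mul_of_nonneg_left (by linarith) h2.le
      _ = _ := by ring
  have hx1 : 1 ≤ x := by linarith
  obtain ⟨n, hn1, hn2⟩ := exists_nat_pow_near hx1 (by norm_num : (1 : ℝ) < 2)
  refine ⟨b, n + 1, hb1, ?_, ?_, ?_⟩
  · have h1 : (2 : ℝ) ^ b < 2 ^ (n + 1) := by linarith
    have := (pow_lt_pow_iff_right₀ (by norm_num : (1 : ℝ) < 2)).1 h1
    omega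
  · rw [div_le_div_iff₀ (by positivity) (by positivity)]
    have h1 : x * η = 16 * 2 ^ b * b * 2 ^ s := by rw [hx]; field_simp
    have h2 : x * η ≤ 2 ^ (n + 1) * η := mul_le_mul_of_nonneg_right hn2.le hη.le
    nlinarith
  · intro σ hσ hσ2
    rw [le_div_iff₀ hσ]
    rcases le_total M0 0 with hM | hM
    · have h1 : M0 * σ ≤ 0 := mul_nonpos_of_nonpos_of_nonneg hM hσ.le
      have h2 : (0 : ℝ) ≤ 2 ^ b * (b : ℝ) ^ 2 := by positivity
      linarith
    · have hg := gam_pos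
      have h1 : (2 : ℝ) ^ (n + 1) ≤ 2 * x := by rw [pow_succ]; linarith
      rw [div_le_iff₀ hη] at hbM
      calc M0 * σ ≤ M0 * (gam * (2 * x)) := by
            apply mul_le_mul_of_nonneg_left _ hM
            exact hσ2.trans (mul_le_mul_of_nonneg_left h1 hg.le)
        _ = (32 * gam * M0 * 2 ^ s) * (2 ^ b * b / η) := by rw [hx]; field_simp; ring
        _ ≤ (b * η) * (2 ^ b * b / η) := by
            apply mul_le_mul_of_nonneg_right hbM (by positivity)
        _ = 2 ^ b * (b : ℝ) ^ 2 := by field_simp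

/-- FAMB -/
theorem famb : Pool.Agent.Y520.NP.S_FAMB := by
  classical
  intro η M0 hη hη1
  choose b m hb1 hbm hmk hM using params η M0 hη hη1
  let K : ℕ → ℕ := fun s => 2 ^ b s
  have hK1 : ∀ s, 1 ≤ K s := fun s => Nat.one_le_two_pow
  let off : ℕ → ℕ := fun t => ∑ s ∈ range t, K s
  have hoff : ∀ t, off (t + 1) = off t + K t := fun t => Finset.sum_range_succ _ _
  have hmono : StrictMono off := strictMono_nat_of_lt_succ fun t => by
    have := hK1 t
    rw [hoff]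
    omega
  have hex : ∀ i, ∃ t, i < off (t + 1) := fun i =>
    ⟨i, lt_of_lt_of_le (Nat.lt_succ_self i) (hmono.id_le (i + 1))⟩
  let blk : ℕ → ℕ := fun i => Nat.find (hex i)
  have hblk : ∀ t, ∀ i ∈ Ico (off t) (off (t + 1)), blk i = t := by
    intro t i hi
    rw [Finset.mem_Ico] at hi
    rw [Nat.find_eq_iff]
    refine ⟨hi.2, fun s hst hlt => ?_⟩
    have := hmono.monotone (Nat.succ_le_of_lt hst)
    have h3 : off (s + 1) ≤ off t := this
    omega
  refine ⟨off, hmono, by simp [off], fun J K0 hJ => ?_⟩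
  -- the scales
  obtain ⟨N, hN⟩ : ∃ N : ℕ, N = ∑ s ∈ range J, m s + 2 := ⟨_, rfl⟩
  have hmN : ∀ s < J, m s ≤ N := by
    intro s hs
    have := Finset.single_le_sum (f := m) (fun _ _ => Nat.zero_le _) (mem_range.2 hs)
    omega
  have hblkJ : ∀ i : Fin (K0 + 1), blk i < J := by
    intro i
    have h1 : (i : ℕ) < off J := by rw [hJ]; exact i.2
    obtain ⟨J', rfl⟩ : ∃ J', J = J' + 1 := by
      rcases J with _ | J'
      · simp [off] at h1
      · exact ⟨J', rfl⟩
    have : blk i ≤ J' := Nat.find_min' (hex i) h1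
    omega
  set c : Fin (N - 1) → ℝ := fun l => 2 ^ ((l : ℕ) + 1) / 2 ^ N with hc
  have hcpos : ∀ l, 0 < c l := fun l => by simp only [hc]; positivity
  have hcle : ∀ l, c l ≤ 1 / 2 := by
    intro l
    simp only [hc]
    rw [div_le_div_iff₀ (by positivity) (by norm_num)]
    have h1 : (l : ℕ) + 1 + 1 ≤ N := by have := l.2; omega
    calc (2 : ℝ) ^ ((l : ℕ) + 1) * 2 = 2 ^ ((l : ℕ) + 1 + 1) := (pow_succ _ _).symm
      _ ≤ 2 ^ N := pow_le_pow_right₀ (by norm_num) h1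
      _ = 1 * 2 ^ N := (one_mul _).symm
  have hcd : ∀ l l' : Fin (N - 1), l < l' → c l ≤ c l' / 2 := by
    intro l l' h
    simp only [hc]
    rw [div_div, div_le_div_iff₀ (by positivity) (by positivity)]
    have h1 : (2 : ℝ) ^ ((l : ℕ) + 1) ≤ 2 ^ (l' : ℕ) := pow_le_pow_right₀ (by norm_num) h
    have h2 : (2 : ℝ) ^ ((l' : ℕ) + 1) = 2 ^ (l' : ℕ) * 2 := pow_succ _ _
    rw [h2]
    have h3 : (0 : ℝ) < 2 ^ N := by positivity
    nlinarith
  set L : Fin (K0 + 1) → Finset (Fin (N - 1)) := fun i =>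
    univ.filter (fun l : Fin (N - 1) => (l : ℕ) ∈ Ico (N - m (blk i)) (N - m (blk i) + b (blk i))) with hL
  have hsub : ∀ i : Fin (K0 + 1), Ico (N - m (blk i)) (N - m (blk i) + b (blk i)) ⊆ range (N - 1) := by
    intro i l hl
    rw [mem_Ico] at hl
    rw [mem_range]
    have h1 := hmN _ (hblkJ i)
    have h2 := hbm (blk i)
    omega
  have hLsum : ∀ (i : Fin (K0 + 1)) (g : ℕ → ℝ), ∑ l ∈ L i, g (l : ℕ) =
      ∑ t ∈ range (b (blk i)), g (N - m (blk i) + t) := by
    intro i g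
    simp only [hL]
    rw [Finset.sum_filter, Fin.sum_univ_eq_sum_range (fun l => if l ∈ Ico (N - m (blk i))
      (N - m (blk i) + b (blk i)) then g l else 0), ← Finset.sum_filter, Finset.filter_mem_eq_inter,
      Finset.inter_eq_right.2 (hsub i), Finset.sum_Ico_eq_sum_range, Nat.add_sub_cancel_left]
  have hLcard : ∀ i, ((L i).card : ℝ) = b (blk i) := by
    intro i
    have h1 := hLsum i (fun _ => 1)
    simp only [Finset.sum_const, nsmul_eq_mul, mul_one, card_range] at h1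
    exact h1
  have hsj : ∀ i, sj L c i = gam * 2 ^ m (blk i) * (1 - (1 / 2) ^ b (blk i)) := by
    intro i
    unfold sj
    simp only [hc]
    rw [hLsum i (fun l => gam / (2 ^ (l + 1) / 2 ^ N)), ← half_sum, Finset.mul_sum]
    refine Finset.sum_congr rfl fun t _ => ?_
    have h1 : (2 : ℝ) ^ N = 2 ^ (N - m (blk i)) * 2 ^ m (blk i) := by
      rw [← pow_add, Nat.sub_add_cancel (hmN _ (hblkJ i))]
    have h2 : (2 : ℝ) ^ (N - m (blk i) + t + 1) = 2 ^ (N - m (blk i)) * 2 ^ (t + 1) := by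
      rw [← pow_add]; congr 1
    rw [h1, h2, one_div, inv_pow]
    field_simp
  have hg := gam_pos
  have hhalf : ∀ s, (1 / 2 : ℝ) ≤ 1 - (1 / 2) ^ b s := by
    intro s
    have h1 : (1 / 2 : ℝ) ^ b s ≤ (1 / 2) ^ 1 :=
      pow_le_pow_of_le_one (by norm_num) (by norm_num) (hb1 s)
    linarith
  have hσpos : ∀ s, 0 < gam * 2 ^ m s * (1 - (1 / 2) ^ b s) := by
    intro s
    have := hhalf s
    have h2 : (0 : ℝ) < 1 - (1 / 2) ^ b s := by linarith
    positivity
  have hσle : ∀ s, gam * 2 ^ m s * (1 - (1 / 2) ^ b s) ≤ gam * 2 ^ m s := by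
    intro s
    have h1 : (0 : ℝ) ≤ (1 / 2) ^ b s := by positivity
    have h2 : (0 : ℝ) < gam * 2 ^ m s := by positivity
    nlinarith
  have hsjpos : ∀ i, 0 < sj L c i := fun i => by rw [hsj]; exact hσpos _
  -- Markov sums
  have hterm : ∀ i : Fin (K0 + 1), ((L i).card : ℝ) * gam / sj L c i ≤
      (fun s => η / (8 * 2 ^ b s * 2 ^ s)) (blk i) := by
    intro i
    rw [hLcard, hsj]
    refine le_trans ?_ (hmk (blk i))
    rw [div_le_div_iff₀ (hσpos _) (by positivity)]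
    have h1 := hhalf (blk i)
    have h2 : (0 : ℝ) < gam * 2 ^ m (blk i) := by positivity
    have h3 : (0 : ℝ) ≤ b (blk i) := Nat.cast_nonneg _
    have h4 : gam * 2 ^ m (blk i) ≤ 2 * (gam * 2 ^ m (blk i) * (1 - (1 / 2) ^ b (blk i))) := by
      nlinarith
    calc (b (blk i) : ℝ) * gam * 2 ^ m (blk i) = b (blk i) * (gam * 2 ^ m (blk i)) := by ring
      _ ≤ b (blk i) * (2 * (gam * 2 ^ m (blk i) * (1 - (1 / 2) ^ b (blk i)))) :=
          mul_le_mul_of_nonneg_left h4 h3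
      _ = _ := by ring
  have hall : ∑ i : Fin (K0 + 1), ((L i).card : ℝ) * gam / sj L c i ≤ η * (1 / 2) := by
    refine (Finset.sum_le_sum fun i _ => hterm i).trans ?_
    rw [Fin.sum_univ_eq_sum_range (fun i => (fun s => η / (8 * 2 ^ b s * 2 ^ s)) (blk i)), ← hJ]
    refine (le_of_eq (sum_blocks K blk hblk (fun s => η / (8 * 2 ^ b s * 2 ^ s)) J)).trans ?_
    have h1 : ∀ s ∈ range J, (K s : ℝ) * (η / (8 * 2 ^ b s * 2 ^ s)) = η / 4 * (1 / 2) ^ (s + 1) := by
      intro s _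
      simp only [K]
      push_cast
      rw [one_div, inv_pow, pow_succ]
      field_simp
      ring
    rw [Finset.sum_congr rfl h1, ← Finset.mul_sum, half_sum]
    have h2 : (0 : ℝ) ≤ (1 / 2) ^ J := by positivity
    nlinarith
  have hnonneg : ∀ i : Fin (K0 + 1), 0 ≤ ((L i).card : ℝ) * gam / sj L c i := fun i =>
    div_nonneg (mul_nonneg (Nat.cast_nonneg _) hg.le) (hsjpos i).le
  have hsucc : ∀ i : Fin (K0 + 1), ∑ j, ((L (i.succAbove j)).card : ℝ) * gam / sj L c (i.succAbove j) ≤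
      η * (1 / 2) := by
    intro i
    refine le_trans ?_ hall
    rw [Fin.sum_univ_succAbove _ i]
    have := hnonneg i
    linarith
  set S : ℝ := ∏ j, sj L c j with hS
  have hSpos : 0 < S := Finset.prod_pos fun j _ => hsjpos j
  have hSi : ∀ i, S = sj L c i * ∏ j, sj L c (i.succAbove j) := fun i =>
    Fin.prod_univ_succAbove _ i
  refine ⟨N - 1, fun l => hs (c l), c, AA L c, S,
    fun s => 2 ^ b s * (b s : ℝ) ^ 2 / (gam * 2 ^ m s * (1 - (1 / 2) ^ b s)), fun l => hs_smooth _,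
    fun l => hs_compact (hcpos l), ?_, fun l => ⟨(hcpos l).le, hcle l⟩, ?_, fun l y => hs_abs_le _ _,
    ?_, II_le L c hcpos hcd, ?_⟩
  · intro l y hy
    apply hs_zero (hcpos l)
    exact hy.le.trans (le_abs_self y)
  · intro a ha
    exact (Finset.mem_filter.1 ha).2
  · rw [II_eq L c hcpos hcd]
    have h1 := comb L c (fun l => gam / c l) gam η 1 hg hcpos
      (fun l => by have := (hcpos l).ne'; field_simp) (fun j => sj L c j) (fun j => rfl) hsjpos
      one_pos (by linarith)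
    refine lt_of_lt_of_le ?_ h1
    exact mul_pos (by linarith) hSpos
  · intro s hsJ
    refine ⟨hM s _ (hσpos s) (hσle s), fun i hi1 hi2 => ?_⟩
    have hbi : blk i = s := hblk s i (mem_Ico.2 ⟨hi1, hi2⟩)
    have hKs : ((off (s + 1) : ℕ) : ℝ) - off s = 2 ^ b s := by
      rw [hoff]
      simp only [K]
      push_cast
      ring
    have hsji := hsj i
    rw [hbi] at hsji
    have hLi := hLcard i
    rw [hbi] at hLi
    rw [hKs]
    obtain ⟨σ, hσ⟩ : ∃ σ : ℝ, σ = gam * 2 ^ m s * (1 - (1 / 2) ^ b s) := ⟨_, rfl⟩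
    have hσ0 : 0 < σ := by rw [hσ]; exact hσpos s
    rw [← hσ] at hsji
    simp only [← hσ]
    constructor
    · have h1 := JJ_ge L c hcpos hcd i η hsjpos hcle (hsucc i)
      rw [hLi] at h1
      have h2 := hSi i
      rw [hsji] at h2
      rw [h2]
      have hK : (0 : ℝ) < 2 ^ b s := by positivity
      calc (1 - η) * (2 ^ b s * (b s : ℝ) ^ 2 / σ) * (σ * ∏ j, sj L c (i.succAbove j)) =
            2 ^ b s * ((1 - η) * (b s : ℝ) ^ 2 * ∏ j, sj L c (i.succAbove j)) := by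
              field_simp
        _ ≤ _ := mul_le_mul_of_nonneg_left h1 hK.le
    · intro j0 hj1 hj2
      have hbj : blk (i.succAbove j0 : Fin (K0 + 1)) = s := hblk s _ (mem_Ico.2 ⟨hj1, hj2⟩)
      have hsjj := hsj (i.succAbove j0)
      rw [hbj, ← hσ] at hsjj
      have hLj := hLcard (i.succAbove j0)
      rw [hbj] at hLj
      have h1 := JJ2_le L c hcpos hcd i j0
      rw [hLi, hLj] at h1
      have h2 := hSi i
      rw [hsji, ← Finset.mul_prod_erase univ _ (Finset.mem_univ j0), hsjj] at h2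
      rw [h2]
      have hK : (0 : ℝ) < (2 ^ b s) ^ 2 := by positivity
      calc ((2 : ℝ) ^ b s) ^ 2 * JJ2 (fun l => hs (c l)) (AA L c) i j0 ≤
            (2 ^ b s) ^ 2 * ((b s : ℝ) ^ 2 * ((b s : ℝ) ^ 2 *
              ∏ j ∈ (univ : Finset (Fin K0)).erase j0, sj L c (i.succAbove j))) :=
              mul_le_mul_of_nonneg_left h1 hK.le
        _ = _ := by field_simp

end Pool.Agent.Run7.h614.NP
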