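import Pool.Agent.Y520.NP.FinP
import Pool.Agent.H361R2.InfT1
import Pool.Agent.H361R2.InfT3
import Pool.Agent.H361R2.InfT4

/-!
# Infinite exact prime patterns along narrow progressions, coloured

`S_BM` of `Pool.Agent.Y520.NP.Stm` (finitely additive measures for every number of blocks, sets of
positive measure contain narrow progressions) and the combinatorial theorem
`Pool.Agent.H361R2.Inf.comb`: every infinite set of integers contains an infinite exact pattern.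
-/

set_option autoImplicit false

open Finset Filter Topology
open scoped Nat

namespace Pool.Agent.Run7.h614.NP

open Pool.Agent.Y520.NP
open Pool.Agent.H361R2.Inf (FMeas T3_mono exists_seq avoid)

/-- the integers `n` for which the primes at distance at most `R` from `n` are exactly the numbers
`n + y`, `y ∈ P`, and have the colours `γ y` -/
def PatC {κ : Type} (χ : ℕ → κ) (γ : ℤ → κ) (R : ℕ) (P : Set ℤ) : Set ℕ :=
  {n : ℕ | ∀ y : ℤ, |y| ≤ R → ((Nat.Prime ((n : ℤ) + y).toNat ↔ y ∈ P) ∧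
    (y ∈ P → χ ((n : ℤ) + y).toNat = γ y))}

theorem patC_anti {κ : Type} (χ : ℕ → κ) (γ : ℤ → κ) {R R' : ℕ} (h : R ≤ R') (P : Set ℤ) :
    PatC χ γ R' P ⊆ PatC χ γ R P := by
  intro n hn y hy
  exact hn y (hy.trans (by exact_mod_cast h))

/-- a sequence in an infinite set which misses a class modulo every prime -/
theorem exists_adm (F : Set ℤ) (hF : F.Infinite) : ∃ f : ℕ → ℤ, Function.Injective f ∧
    (∀ i, f i ∈ F) ∧ ∀ p : ℕ, p.Prime → ∃ n : ℤ, ∀ i, ¬ (p : ℤ) ∣ n + f i := by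
  haveI : ∀ j : ℕ, NeZero ((j + 3)!) := fun j => ⟨Nat.factorial_ne_zero _⟩
  obtain ⟨f, hinj, hfF, hf⟩ := exists_seq (fun j => ZMod ((j + 3)!)) (fun j x => (x : ZMod ((j + 3)!))) F hF
  refine ⟨f, hinj, hfF, fun p hp => ?_⟩
  obtain ⟨n, hn⟩ := avoid (fun _ => 1) f (fun _ => isCoprime_one_left) (fun _ _ _ => Int.ModEq.refl _)
    (fun j i hji => (ZMod.intCast_eq_intCast_iff _ _ _).1 (hf j i hji)) p hp
  refine ⟨n, fun i hi => hn i ?_⟩
  rwa [one_mul]

/-- the measure for one `J`, in the variable `n + T` -/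
theorem one {K J : ℕ} {blk : ℕ → Finset ℕ} {tot c : ℝ} (hBM : BMg K J blk tot c)
    (hblk : ∀ s < J, ∀ i ∈ blk s, i < K) (f : ℕ → ℤ) (hinj : Function.Injective f)
    (hadm : ∀ p : ℕ, p.Prime → ∃ n : ℤ, ∀ i, ¬ (p : ℤ) ∣ n + f i) (R : ℕ) :
    ∃ m : Set ℕ → ℝ, FMeas m ∧ m Set.univ ≤ tot ∧
      (∀ s < J, c ≤ m {n | ∃ i ∈ blk s, n ∈ {n : ℕ | Nat.Prime ((n : ℤ) + f i).toNat}}) ∧
      ∀ S : Set ℕ, 0 < m S → NAP {n | n ∈ S ∧ ∀ y : ℤ, |y| ≤ R → (∀ i < K, y ≠ f i) →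
        ¬ (((n : ℕ) : ℤ) + y).toNat.Prime} := by
  classical
  obtain ⟨z, hz⟩ := hBM
  obtain ⟨W, a0, T, t, hstd, ht, -, -, n₁, hn₁⟩ := setup (K := K) z 1 0 squarefree_one
    (Nat.coprime_one_right 0) f
    (fun i _ j _ h => hinj h) (fun i _ => by simp) (fun p hp _ => by
      obtain ⟨n, hn⟩ := hadm p hp
      exact ⟨n, fun i _ => hn i⟩) R
  obtain ⟨m, hm, htot, hc, hNAP⟩ := hz W a0 t hstd
  refine ⟨fun S => m {n | n + T ∈ S}, ⟨fun S => hm.nonneg _, fun S S' hS => ?_, fun S hS => ?_⟩,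
    ?_, ?_, ?_⟩
  · have h1 := hm.add {n | n + T ∈ S} {n | n + T ∈ S'} (by
      rw [Set.disjoint_left] at hS ⊢
      intro n h2 h3
      exact hS h2 h3)
    exact h1
  · apply hm.fin
    apply hS.preimage
    intro x _ y _ hxy
    simp only [add_left_inj] at hxy
    exact hxy
  · exact htot
  · intro s hs
    refine (hc s hs).trans (le_of_eq ?_)
    congr 1
    ext n
    simp only [Set.mem_ofPred_eq]
    have e : ∀ i < K, (((n + T : ℕ) : ℤ) + f i).toNat = n + t i := by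
      intro i hi
      have : (((n + T : ℕ) : ℤ) + f i) = ((n + t i : ℕ) : ℤ) := by
        push_cast
        rw [ht i hi]
        ring
      rw [this, Int.toNat_natCast]
    constructor
    · rintro ⟨i, hi, hp⟩
      exact ⟨i, hi, by rw [e i (hblk s hs i hi)]; exact hp⟩
    · rintro ⟨i, hi, hp⟩
      refine ⟨i, hi, ?_⟩
      rwa [e i (hblk s hs i hi)] at hp
  · intro S hS
    refine NAP_map T n₁ ?_ (hNAP _ hS)
    rintro n ⟨hn1, hn2⟩ hn3
    exact ⟨hn1, fun y hy hyK => hn₁ n hn3 hn2 y hy hyK⟩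

/-- `S_BM` in the form of `BMg` -/
theorem bm_blocks (h : S_BM) : ∃ off : ℕ → ℕ, StrictMono off ∧ off 0 = 0 ∧
    ∀ J, BMg (off J) J (fun s => Ico (off s) (off (s + 1))) 2 (1 / 10) := by
  obtain ⟨off, h1, h2, h3⟩ := h
  refine ⟨off, h1, h2, fun J => ?_⟩
  obtain ⟨z, hz⟩ := h3 J
  refine ⟨z, fun W a0 t hstd => ?_⟩
  obtain ⟨hW, hsq, hWz, hdiff, hcop⟩ := hstd
  exact hz W a0 t hW hsq hWz hdiff hcop

/-- the infinite theorem -/
theorem inf_pat (h : S_BM) {κ : Type} [Finite κ] [Nonempty κ] (χ : ℕ → κ) (F : Set ℤ)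
    (hF : F.Infinite) :
    ∃ G ⊆ F, G.Infinite ∧ ∀ R : ℕ, ∃ γ : ℤ → κ, NAP (PatC χ γ R G) := by
  classical
  haveI := Fintype.ofFinite κ
  obtain ⟨off, hoff, h0, hBM⟩ := bm_blocks h
  obtain ⟨f, hinj, hfF, hadm⟩ := exists_adm F hF
  have hone := fun J : ℕ => one (hBM J) (fun s hs i hi =>
    (mem_Ico.1 hi).2.trans_le (hoff.monotone (Nat.succ_le_of_lt hs))) f hinj hadm J
  choose M hM hM2 hMc hMS using hone
  set U : Ultrafilter ℕ := Ultrafilter.of atTop with hU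
  have hUle : (U : Filter ℕ) ≤ atTop := Ultrafilter.of_le _
  have hlim : ∀ S : Set ℕ, ∃ l : ℝ, Tendsto (fun J => M J S) U (𝓝 l) := by
    intro S
    have hc1 : IsCompact (Set.Icc (0 : ℝ) 2) := isCompact_Icc
    have h1 : ((U.map (fun J => M J S) : Ultrafilter ℝ) : Filter ℝ) ≤ 𝓟 (Set.Icc (0 : ℝ) 2) := by
      rw [le_principal_iff, Ultrafilter.mem_coe, Ultrafilter.mem_map]
      apply Filter.univ_mem'
      intro J
      exact ⟨(hM J).nonneg S, (T3_mono (hM J) (Set.subset_univ S)).trans (hM2 J)⟩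
    obtain ⟨l, _, hl⟩ := hc1.ultrafilter_le_nhds _ h1
    exact ⟨l, hl⟩
  choose m hm using hlim
  have hmF : FMeas m := by
    refine ⟨fun S => ?_, fun S T hST => ?_, fun S hS => ?_⟩
    · exact ge_of_tendsto' (hm S) fun J => (hM J).nonneg S
    · have h1 := (hm S).add (hm T)
      have h2 := hm (S ∪ T)
      have h3 : (fun J => M J (S ∪ T)) = fun J => M J S + M J T := by
        ext J
        exact (hM J).add S T hST
      rw [h3] at h2
      exact tendsto_nhds_unique h2 h1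
    · have h1 := hm S
      have h2 : (fun J => M J S) = fun _ => 0 := by
        ext J
        exact (hM J).fin S hS
      rw [h2] at h1
      exact tendsto_nhds_unique h1 tendsto_const_nhds
  obtain ⟨I, hI, hIN⟩ := Pool.Agent.H361R2.Inf.comb m hmF off hoff h0
    (fun i => {n : ℕ | Nat.Prime ((n : ℤ) + f i).toNat}) (1 / 10) (by norm_num) (by
      intro t
      apply ge_of_tendsto (hm _)
      have h1 : ∀ᶠ J in (U : Filter ℕ), t < J := hUle (eventually_gt_atTop t)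
      filter_upwards [h1] with J hJ
      exact hMc J t hJ)
  refine ⟨f '' I, ?_, hI.image hinj.injOn, fun R => ?_⟩
  · rintro _ ⟨i, _, rfl⟩
    exact hfF i
  -- the indices with `|f i| ≤ R`
  obtain ⟨N, hN⟩ : ∃ N : ℕ, ∀ i, |f i| ≤ R → i < N := by
    have h1 : (f ⁻¹' (Set.Icc (-(R : ℤ)) R)).Finite := (Set.finite_Icc _ _).preimage hinj.injOn
    obtain ⟨N, hN⟩ := h1.bddAbove
    refine ⟨N + 1, fun i hi => Nat.lt_succ_of_le (hN ?_)⟩
    exact abs_le.1 hi
  -- the colours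
  set S : Set ℕ := {n | ∀ i < N, (n ∈ {n : ℕ | Nat.Prime ((n : ℤ) + f i).toNat} ↔ i ∈ I)} with hS
  set vc : ℕ → (Fin N → κ) := fun n i => χ ((n : ℤ) + f i).toNat with hvc
  obtain ⟨v, hv⟩ : ∃ v : Fin N → κ, 0 < m {n | n ∈ S ∧ vc n = v} := by
    by_contra hcon
    push Not at hcon
    have h1 := fm_part hmF vc S (Finset.univ : Finset (Fin N → κ))
    have h2 : {n | n ∈ S ∧ vc n ∈ (Finset.univ : Finset (Fin N → κ))} = S := by
      ext n
      simp
    rw [h2] at h1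
    have h3 := hIN N
    rw [h1] at h3
    exact absurd h3 (not_lt.2 (Finset.sum_nonpos fun v _ => hcon v))
  let γ : ℤ → κ := fun y => if hy : ∃ i : Fin N, f i = y then v hy.choose else Classical.arbitrary κ
  have hγ : ∀ i : Fin N, γ (f i) = v i := by
    intro i
    have hy : ∃ i' : Fin N, f i' = f i := ⟨i, rfl⟩
    simp only [γ]
    rw [dif_pos hy]
    congr 1
    exact Fin.ext (hinj hy.choose_spec)
  have h1 : ∀ᶠ J in (U : Filter ℕ), 0 < M J {n | n ∈ S ∧ vc n = v} :=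
    (hm _).eventually (lt_mem_nhds hv)
  have h2 : ∀ᶠ J in (U : Filter ℕ), max R N ≤ J := hUle (eventually_ge_atTop _)
  obtain ⟨J, hJ1, hJ2⟩ := (h1.and h2).exists
  refine ⟨γ, NAP_mono ?_ (hMS J _ hJ1)⟩
  rintro n ⟨⟨h4, h5⟩, h6⟩ y hy
  by_cases hyf : ∃ i, f i = y
  · obtain ⟨i, rfl⟩ := hyf
    have hiN := hN i hy
    have e1 : (f i ∈ f '' I) ↔ i ∈ I := by
      constructor
      · rintro ⟨i', hi', he⟩
        rwa [← hinj he]
      · intro h
        exact ⟨i, h, rfl⟩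
    refine ⟨?_, fun _ => ?_⟩
    · rw [e1]
      exact h4 i hiN
    · have h7 := congrFun h5 ⟨i, hiN⟩
      have h8 := hγ ⟨i, hiN⟩
      simp only [hvc] at h7
      rw [h7]
      exact h8.symm
  · have h7 : ¬ (((n : ℕ) : ℤ) + y).toNat.Prime := by
      refine h6 y (hy.trans ?_) (fun i _ h => hyf ⟨i, h.symm⟩)
      exact_mod_cast (le_max_left R N).trans hJ2
    have h8 : y ∉ f '' I := fun ⟨i, _, h⟩ => hyf ⟨i, h⟩
    exact ⟨⟨fun h => absurd h h7, fun h => absurd h h8⟩, fun h => absurd h h8⟩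

end Pool.Agent.Run7.h614.NP
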